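import Mathlib
import Pool.Agent.W459.IW.Ptw

/-! Project IX: the sharp pointwise inequality for all `p ≥ 2`. -/

set_option autoImplicit false

open Set

namespace Pool.Agent.W802.IX

open Pool.Agent.W459.IW.Ptw

/-- the homogeneous function -/
noncomputable def Wx (p x y : ℝ) : ℝ :=
  if y ≤ x then 2 ^ (p - 2) * ((p - 1) * x ^ p - (3 - p) * y ^ p)
  else ((p - 1) * x - y) * (x + y) ^ (p - 1)

/-- **The sharp pointwise inequality** for all `p ≥ 2`. -/
theorem ptw (p x y : ℝ) (hp : 2 ≤ p) (hx : 0 ≤ x) (hy : 0 ≤ y) :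
    p * (1 - 1 / p) ^ (p - 1) * Wx p x y ≤ (p - 1) ^ p * x ^ p - y ^ p := by
  show cp p * Wx p x y ≤ (p - 1) ^ p * x ^ p - y ^ p
  have hcp := cp_pos hp
  have hp0 : 0 < p := by linarith
  unfold Wx
  split_ifs with hyx
  · have hX : 0 ≤ x ^ p := Real.rpow_nonneg hx _
    have hY : 0 ≤ y ^ p := Real.rpow_nonneg hy _
    have hYX : y ^ p ≤ x ^ p := Real.rpow_le_rpow hy hyx hp0.le
    -- the two end points
    have h0 : cp p * 2 ^ (p - 2) * (p - 1) ≤ (p - 1) ^ p := by
      have e1 : (p - 1) ^ p = (p - 1) ^ (p - 1) * (p - 1) := by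
        rw [← Real.rpow_add_one (by linarith)]
        congr 1
        ring
      rw [e1, ← cp_mul hp]
      have e2 : (2 : ℝ) ^ (p - 2) ≤ p ^ (p - 2) :=
        Real.rpow_le_rpow (by norm_num) hp (by linarith)
      exact mul_le_mul_of_nonneg_right (mul_le_mul_of_nonneg_left e2 hcp.le) (by linarith)
    have h1 : cp p * 2 ^ (p - 2) * (2 * p - 4) ≤ (p - 1) ^ p - 1 := by
      have h := BB_nonneg hp zero_le_one
      unfold BB at h
      rw [Real.one_rpow] at h
      have e5 : (1 + 1 : ℝ) ^ (p - 1) = 2 ^ (p - 2) * 2 := by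
        rw [show (1 + 1 : ℝ) = 2 by norm_num, ← Real.rpow_add_one (by norm_num)]
        congr 1
        ring
      rw [e5] at h
      nlinarith
    set T := (2 : ℝ) ^ (p - 2)
    have k0 := mul_le_mul_of_nonneg_right h0 (show 0 ≤ x ^ p - y ^ p by linarith)
    have k1 := mul_le_mul_of_nonneg_right h1 hY
    nlinarith
  · rw [not_le] at hyx
    rcases hx.lt_or_eq with hx0 | hx0
    · set t : ℝ := y / x with ht
      have ht0 : 0 ≤ t := div_nonneg hy hx
      have hyt : y = x * t := by
        rw [ht]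
        field_simp
      have h1 := BB_nonneg hp ht0
      unfold BB at h1
      have e1 : x + y = x * (1 + t) := by rw [hyt]; ring
      have e3 : x ^ p = x ^ (p - 1) * x := by
        rw [← Real.rpow_add_one hx0.ne']
        congr 1
        ring
      have e4 : y ^ p = x ^ p * t ^ p := by
        rw [hyt, Real.mul_rpow hx ht0]
      have e5 : ((p - 1) * x - y) * (x + y) ^ (p - 1)
          = x ^ p * ((p - 1 - t) * (1 + t) ^ (p - 1)) := by
        rw [e1, Real.mul_rpow hx (by linarith), hyt, e3]
        ring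
      rw [e5, e4]
      have h2 := mul_nonneg (Real.rpow_nonneg hx p) h1
      nlinarith
    · rw [← hx0, Real.zero_rpow hp0.ne', zero_add]
      have hy0 : 0 < y := by linarith
      have e1 : ((p - 1) * 0 - y) * y ^ (p - 1) = -y ^ p := by
        have e3 : y ^ p = y ^ (p - 1) * y := by
          rw [← Real.rpow_add_one hy0.ne']
          congr 1
          ring
        rw [e3]
        ring
      rw [e1]
      have h1 := one_le_cp hp
      have h2 : 0 ≤ y ^ p := Real.rpow_nonneg hy _
      nlinarith

end Pool.Agent.W802.IX
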